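import Mathlib

/-!
# Shift equivalence and strong shift equivalence over the nonnegative integers
-/

set_option autoImplicit false

open scoped BigOperators
open Polynomial

namespace Pool.Agent.helper52.SSE

/-- square matrices over `ℕ` of all sizes -/
abbrev NM := Σ m : ℕ, Matrix (Fin m) (Fin m) ℕ

/-- `A` and `B` are shift equivalent over the nonnegative integers, with lag `l` -/
def SEl (l : ℕ) {n m : ℕ} (A : Matrix (Fin n) (Fin n) ℕ) (B : Matrix (Fin m) (Fin m) ℕ) : Prop :=
  ∃ (R : Matrix (Fin n) (Fin m) ℕ) (S : Matrix (Fin m) (Fin n) ℕ),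
    0 < l ∧ A ^ l = R * S ∧ B ^ l = S * R ∧ A * R = R * B ∧ S * A = B * S

/-- `A` and `B` are shift equivalent over the nonnegative integers -/
def SE {n m : ℕ} (A : Matrix (Fin n) (Fin n) ℕ) (B : Matrix (Fin m) (Fin m) ℕ) : Prop :=
  ∃ l : ℕ, SEl l A B

/-- elementary strong shift equivalence over the nonnegative integers -/
def Elem (X Y : NM) : Prop :=
  ∃ (R : Matrix (Fin X.1) (Fin Y.1) ℕ) (S : Matrix (Fin Y.1) (Fin X.1) ℕ),
    X.2 = R * S ∧ Y.2 = S * R

/-- strong shift equivalence over the nonnegative integers -/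
def SSE : NM → NM → Prop := Relation.EqvGen Elem

/-- the matrix `B` satisfies a nonzero polynomial of degree at most `e`, i.e. its minimal polynomial
has degree at most `e` -/
def DegLe (e : ℕ) {m : ℕ} (B : Matrix (Fin m) (Fin m) ℕ) : Prop :=
  ∃ p : ℚ[X], p ≠ 0 ∧ p.natDegree ≤ e ∧ aeval (B.map (Nat.cast : ℕ → ℚ)) p = 0

end Pool.Agent.helper52.SSE
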