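import Pool.Agent.helper52.SSE.Trace

set_option autoImplicit false

open scoped BigOperators

namespace Pool.Agent.helper52.SSE

variable {n m : ℕ}

attribute [local instance] Classical.propDecidable

/-! ## strong shift equivalence for matrices indexed by finite types -/

/-- a square matrix over a finite type as an element of `NM` -/
noncomputable def toNM {α : Type*} [Fintype α] (X : Matrix α α ℕ) : NM :=
  ⟨Fintype.card α, X.submatrix (Fintype.equivFin α).symm (Fintype.equivFin α).symm⟩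

lemma elem_toNM {α β : Type*} [Fintype α] [Fintype β] {X : Matrix α α ℕ} {Y : Matrix β β ℕ}
    (R : Matrix α β ℕ) (S : Matrix β α ℕ) (h1 : X = R * S) (h2 : Y = S * R) :
    Elem (toNM X) (toNM Y) := by
  refine ⟨R.submatrix (Fintype.equivFin α).symm (Fintype.equivFin β).symm,
    S.submatrix (Fintype.equivFin β).symm (Fintype.equivFin α).symm, ?_, ?_⟩
  · have h := Matrix.submatrix_mul_equiv R S (Fintype.equivFin α).symm (Fintype.equivFin β).symm
      (Fintype.equivFin α).symm
    rw [← h1] at h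
    exact h.symm
  · have h := Matrix.submatrix_mul_equiv S R (Fintype.equivFin β).symm (Fintype.equivFin α).symm
      (Fintype.equivFin β).symm
    rw [← h2] at h
    exact h.symm

lemma elem_self (B : Matrix (Fin m) (Fin m) ℕ) : Elem ⟨m, B⟩ (toNM B) := by
  set e := (Fintype.equivFin (Fin m)).symm
  refine ⟨B.submatrix id e, (1 : Matrix (Fin m) (Fin m) ℕ).submatrix e id, ?_, ?_⟩
  · have h := Matrix.submatrix_mul_equiv B (1 : Matrix (Fin m) (Fin m) ℕ) id e id
    rw [mul_one] at h
    exact h.symm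
  · have h := Matrix.submatrix_mul_equiv (1 : Matrix (Fin m) (Fin m) ℕ) B e (Equiv.refl _) e
    rw [one_mul] at h
    exact h.symm

/-- restriction of a matrix to a set of indices -/
abbrev rest (B : Matrix (Fin m) (Fin m) ℕ) (s : Finset (Fin m)) : Matrix s s ℕ :=
  B.submatrix (fun x => (x : Fin m)) (fun x => (x : Fin m))

lemma step_col (B : Matrix (Fin m) (Fin m) ℕ) (s : Finset (Fin m)) (v : Fin m)
    (h : ∀ u ∈ s, B u v = 0) : Elem (toNM (rest B s)) (toNM (rest B (s.erase v))) := by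
  refine elem_toNM (fun u w => B u w) (fun w u => if (w : Fin m) = u then 1 else 0) ?_ ?_
  · ext u u'
    rw [Matrix.mul_apply]
    by_cases hu : (u' : Fin m) = v
    · rw [Finset.sum_eq_zero]
      · show B u u' = 0
        rw [hu]
        exact h u u.2
      · intro w _
        have hw : (w : Fin m) ≠ v := (Finset.mem_erase.1 w.2).1
        have : (w : Fin m) ≠ u' := fun h => hw (h.trans hu)
        simp [this]
    · have hmem : (u' : Fin m) ∈ s.erase v := Finset.mem_erase.2 ⟨hu, u'.2⟩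
      rw [Finset.sum_eq_single ⟨(u' : Fin m), hmem⟩]
      · simp
      · intro w _ hw
        have : (w : Fin m) ≠ u' := fun h => hw (Subtype.ext h)
        simp [this]
      · simp
  · ext w w'
    rw [Matrix.mul_apply]
    have hmem : (w : Fin m) ∈ s := Finset.mem_of_mem_erase w.2
    rw [Finset.sum_eq_single ⟨(w : Fin m), hmem⟩]
    · simp
    · intro u _ hu
      have : (w : Fin m) ≠ u := fun h => hu (Subtype.ext h.symm)
      simp [this]
    · simp

lemma step_row (B : Matrix (Fin m) (Fin m) ℕ) (s : Finset (Fin m)) (v : Fin m)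
    (h : ∀ u ∈ s, B v u = 0) : Elem (toNM (rest B s)) (toNM (rest B (s.erase v))) := by
  refine elem_toNM (fun u w => if (u : Fin m) = w then 1 else 0) (fun w u => B w u) ?_ ?_
  · ext u u'
    rw [Matrix.mul_apply]
    by_cases hu : (u : Fin m) = v
    · rw [Finset.sum_eq_zero]
      · show B u u' = 0
        rw [hu]
        exact h u' u'.2
      · intro w _
        have hw : (w : Fin m) ≠ v := (Finset.mem_erase.1 w.2).1
        have : (u : Fin m) ≠ w := fun h => hw (h.symm.trans hu)
        simp [this]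
    · have hmem : (u : Fin m) ∈ s.erase v := Finset.mem_erase.2 ⟨hu, u.2⟩
      rw [Finset.sum_eq_single ⟨(u : Fin m), hmem⟩]
      · simp
      · intro w _ hw
        have : (u : Fin m) ≠ w := fun h => hw (Subtype.ext h.symm)
        simp [this]
      · simp
  · ext w w'
    rw [Matrix.mul_apply]
    have hmem : (w' : Fin m) ∈ s := Finset.mem_of_mem_erase w'.2
    rw [Finset.sum_eq_single ⟨(w' : Fin m), hmem⟩]
    · simp
    · intro u _ hu
      have : (u : Fin m) ≠ w' := fun h => hu (Subtype.ext h)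
      simp [this]
    · simp

/-! ## the core -/

lemma pow_pos_of {B : Matrix (Fin m) (Fin m) ℕ} {a b : ℕ} {i j k : Fin m}
    (h1 : 0 < (B ^ a) i j) (h2 : 0 < (B ^ b) j k) : 0 < (B ^ (a + b)) i k := by
  rw [pow_add, Matrix.mul_apply]
  exact Finset.sum_pos' (fun _ _ => Nat.zero_le _) ⟨j, Finset.mem_univ _, Nat.mul_pos h1 h2⟩

lemma le_pow_of {B : Matrix (Fin m) (Fin m) ℕ} {a b : ℕ} {i j k : Fin m} :
    (B ^ a) i j * (B ^ b) j k ≤ (B ^ (a + b)) i k := by
  rw [pow_add, Matrix.mul_apply]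
  exact Finset.single_le_sum (f := fun j => (B ^ a) i j * (B ^ b) j k)
    (fun _ _ => Nat.zero_le _) (Finset.mem_univ j)

/-- the vertices on cycles of length `K` -/
noncomputable def core (B : Matrix (Fin m) (Fin m) ℕ) (K : ℕ) : Finset (Fin m) :=
  Finset.univ.filter fun u => 0 < (B ^ K) u u

lemma mem_core {B : Matrix (Fin m) (Fin m) ℕ} {K : ℕ} {u : Fin m} :
    u ∈ core B K ↔ 0 < (B ^ K) u u := by
  simp [core]

/-- `B ^ K` has the positivity pattern of a rectangle -/
def Rect (B : Matrix (Fin m) (Fin m) ℕ) (K : ℕ) : Prop :=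
  ∀ u v w z : Fin m, 0 < (B ^ K) u v → 0 < (B ^ K) w z → 0 < (B ^ K) u z

lemma rect_of {l k : ℕ} {A : Matrix (Fin n) (Fin n) ℕ} {B : Matrix (Fin m) (Fin m) ℕ}
    (h : SEl l A B) (hA : ∀ i j, 0 < (A ^ k) i j) : Rect B (k + l) := by
  obtain ⟨R, S, -, h1, h2, h3, h4⟩ := h
  have e : B ^ (k + l) = S * (A ^ k * R) := by
    rw [pow_add, h2, ← Matrix.mul_assoc, ← pow_comm'' h4, Matrix.mul_assoc]
  have hpos : ∀ u v, 0 < (B ^ (k + l)) u v → (∃ a, 0 < S u a) ∧ ∃ b, 0 < R b v := by
    intro u v huv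
    rw [e, Matrix.mul_apply] at huv
    obtain ⟨a, -, ha⟩ := Finset.exists_ne_zero_of_sum_ne_zero huv.ne'
    have ha1 := Nat.pos_of_ne_zero (left_ne_zero_of_mul ha)
    have ha2 := right_ne_zero_of_mul ha
    rw [Matrix.mul_apply] at ha2
    obtain ⟨b, -, hb⟩ := Finset.exists_ne_zero_of_sum_ne_zero ha2
    exact ⟨⟨a, ha1⟩, b, Nat.pos_of_ne_zero (right_ne_zero_of_mul hb)⟩
  intro u v w z huv hwz
  obtain ⟨⟨a, ha⟩, -⟩ := hpos u v huv
  obtain ⟨-, b, hb⟩ := hpos w z hwz
  rw [e, Matrix.mul_apply]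
  refine Finset.sum_pos' (fun _ _ => Nat.zero_le _) ⟨a, Finset.mem_univ _, Nat.mul_pos ha ?_⟩
  rw [Matrix.mul_apply]
  exact Finset.sum_pos' (fun _ _ => Nat.zero_le _) ⟨b, Finset.mem_univ _, Nat.mul_pos (hA a b) hb⟩

variable {B : Matrix (Fin m) (Fin m) ℕ} {K : ℕ}

lemma core_pos (hR : Rect B K) {u v : Fin m} (hu : u ∈ core B K) (hv : v ∈ core B K) :
    0 < (B ^ K) u v := hR u u v v (mem_core.1 hu) (mem_core.1 hv)

lemma core_succ (hK : 0 < K) {u : Fin m} (hu : u ∈ core B K) :
    ∃ w ∈ core B K, 0 < B u w := by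
  have h := mem_core.1 hu
  obtain ⟨k, rfl⟩ : ∃ k, K = k + 1 := ⟨K - 1, by omega⟩
  rw [pow_succ', Matrix.mul_apply] at h
  obtain ⟨w, -, hw⟩ := Finset.exists_ne_zero_of_sum_ne_zero h.ne'
  have h1 : 0 < B u w := Nat.pos_of_ne_zero (left_ne_zero_of_mul hw)
  have h2 : 0 < (B ^ k) w u := Nat.pos_of_ne_zero (right_ne_zero_of_mul hw)
  refine ⟨w, mem_core.2 ?_, h1⟩
  have h3 : 0 < (B ^ 1) u w := by simpa using h1
  exact pow_pos_of h2 h3

lemma core_pred (hK : 0 < K) {u : Fin m} (hu : u ∈ core B K) :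
    ∃ w ∈ core B K, 0 < B w u := by
  have h := mem_core.1 hu
  obtain ⟨k, rfl⟩ : ∃ k, K = k + 1 := ⟨K - 1, by omega⟩
  rw [pow_succ, Matrix.mul_apply] at h
  obtain ⟨w, -, hw⟩ := Finset.exists_ne_zero_of_sum_ne_zero h.ne'
  have h1 : 0 < (B ^ k) u w := Nat.pos_of_ne_zero (left_ne_zero_of_mul hw)
  have h2 : 0 < B w u := Nat.pos_of_ne_zero (right_ne_zero_of_mul hw)
  refine ⟨w, mem_core.2 ?_, h2⟩
  have h3 : 0 < (B ^ 1) w u := by simpa using h2
  have := pow_pos_of h3 h1
  rwa [add_comm] at this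

lemma long_succ {s : Finset (Fin m)} (h : ∀ u ∈ s, ∃ w ∈ s, 0 < B u w) (t : ℕ) :
    ∀ u ∈ s, ∃ w ∈ s, 0 < (B ^ t) u w := by
  induction t with
  | zero => intro u hu; exact ⟨u, hu, by simp⟩
  | succ t ih =>
    intro u hu
    obtain ⟨w, hw, h1⟩ := ih u hu
    obtain ⟨z, hz, h2⟩ := h w hw
    exact ⟨z, hz, pow_pos_of h1 (by simpa using h2)⟩

lemma long_pred {s : Finset (Fin m)} (h : ∀ u ∈ s, ∃ w ∈ s, 0 < B w u) (t : ℕ) :
    ∀ u ∈ s, ∃ w ∈ s, 0 < (B ^ t) w u := by
  induction t with
  | zero => intro u hu; exact ⟨u, hu, by simp⟩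
  | succ t ih =>
    intro u hu
    obtain ⟨w, hw, h1⟩ := ih u hu
    obtain ⟨z, hz, h2⟩ := h w hw
    refine ⟨z, hz, ?_⟩
    have := pow_pos_of (a := 1) (b := t) (by simpa using h2) h1
    rwa [add_comm] at this

/-- the restriction to every set containing the core is strong shift equivalent to the core -/
theorem sse_core (hK : 0 < K) (hR : Rect B K) :
    ∀ (c : ℕ) (s : Finset (Fin m)), core B K ⊆ s → s.card = c →
      SSE (toNM (rest B s)) (toNM (rest B (core B K))) := by
  intro c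
  induction c using Nat.strong_induction_on with
  | _ c ih =>
    intro s hs hc
    by_cases heq : s = core B K
    · rw [heq]
      exact Relation.EqvGen.refl _
    · by_cases h : (∀ u ∈ s, ∃ w ∈ s, 0 < B u w) ∧ ∀ u ∈ s, ∃ w ∈ s, 0 < B w u
      · exfalso
        apply heq
        refine le_antisymm (fun u hu => ?_) hs
        obtain ⟨w, -, hw⟩ := long_succ h.1 K u hu
        obtain ⟨z, -, hz⟩ := long_pred h.2 K u hu
        exact mem_core.2 (hR u w z u hw hz)
      · have key : ∃ v ∈ s, v ∉ core B K ∧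
            Elem (toNM (rest B s)) (toNM (rest B (s.erase v))) := by
          by_cases h1 : ∀ u ∈ s, ∃ w ∈ s, 0 < B u w
          · have h2 : ¬ ∀ u ∈ s, ∃ w ∈ s, 0 < B w u := fun h2 => h ⟨h1, h2⟩
            push Not at h2
            obtain ⟨v, hv, h3⟩ := h2
            refine ⟨v, hv, fun hvc => ?_, step_col B s v fun u hu => Nat.le_zero.1 (h3 u hu)⟩
            obtain ⟨w, hw, h4⟩ := core_pred hK hvc
            exact absurd (h3 w (hs hw)) (by omega)
          · push Not at h1
            obtain ⟨v, hv, h3⟩ := h1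
            refine ⟨v, hv, fun hvc => ?_, step_row B s v fun u hu => Nat.le_zero.1 (h3 u hu)⟩
            obtain ⟨w, hw, h4⟩ := core_succ hK hvc
            exact absurd (h3 w (hs hw)) (by omega)
        obtain ⟨v, hv, hvc, hel⟩ := key
        refine (Relation.EqvGen.rel _ _ hel).trans _ _ _ (ih (s.erase v).card ?_ _ ?_ rfl)
        · rw [← hc]
          exact Finset.card_erase_lt_of_mem hv
        · intro w hw
          refine Finset.mem_erase.2 ⟨?_, hs hw⟩
          rintro rfl
          exact hvc hw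

theorem sse_self (hK : 0 < K) (hR : Rect B K) :
    SSE ⟨m, B⟩ (toNM (rest B (core B K))) := by
  have h1 : Elem (toNM B) (toNM (rest B Finset.univ)) := by
    refine elem_toNM (fun u w => B u w) (fun w u => if (w : Fin m) = u then 1 else 0) ?_ ?_
    · ext u u'
      rw [Matrix.mul_apply, Finset.sum_eq_single ⟨u', Finset.mem_univ _⟩]
      · simp
      · intro w _ hw
        have : (w : Fin m) ≠ u' := fun h => hw (Subtype.ext h)
        simp [this]
      · simp
    · ext w w'
      rw [Matrix.mul_apply, Finset.sum_eq_single (w : Fin m)]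
      · simp
      · intro u _ hu
        simp [hu.symm]
      · simp
  exact ((Relation.EqvGen.rel _ _ (elem_self B)).trans _ _ _ (Relation.EqvGen.rel _ _ h1)).trans _ _ _
    (sse_core hK hR _ _ (Finset.subset_univ _) rfl)

end Pool.Agent.helper52.SSE
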