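import Pool.Agent.helper52.SSE.Core

set_option autoImplicit false

open scoped BigOperators
open Polynomial

namespace Pool.Agent.helper52.SSE

variable {n m : ℕ}

attribute [local instance] Classical.propDecidable

/-- the sum of the traces of the first `e` powers -/
def bound (A : Matrix (Fin n) (Fin n) ℕ) (e : ℕ) : ℕ := ∑ k ∈ Finset.range e, (A ^ (k + 1)).trace

lemma diag_le_trace (B : Matrix (Fin m) (Fin m) ℕ) (i : Fin m) : B i i ≤ B.trace := by
  unfold Matrix.trace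
  exact Finset.single_le_sum (f := fun i => B i i) (fun _ _ => Nat.zero_le _) (Finset.mem_univ i)

/-- the size of the core and its entries are bounded by the traces of the powers of `A` -/
theorem core_bound {l k e : ℕ} {A : Matrix (Fin n) (Fin n) ℕ} {B : Matrix (Fin m) (Fin m) ℕ}
    (h : SEl l A B) (hA : ∀ i j, 0 < (A ^ k) i j) (hB : DegLe e B) :
    (core B (k + l)).card ≤ bound A e ∧
      ∀ i ∈ core B (k + l), ∀ j ∈ core B (k + l), B i j ≤ bound A e := by
  have hR := rect_of h hA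
  have hl : 0 < l := h.choose_spec.choose_spec.1
  obtain ⟨p, hp, hpe, hpB⟩ := hB
  have hbd : bound A e = ∑ t ∈ Finset.range e, (B ^ (t + 1)).trace :=
    Finset.sum_congr rfl fun t _ => trace_eq h (t + 1) (by omega)
  constructor
  · have h1 : ∀ i ∈ core B (k + l), 1 ≤ ∑ t ∈ Finset.range e, (B ^ (t + 1)) i i := by
      intro i hi
      by_contra hcon
      have h0 : ∑ t ∈ Finset.range e, (B ^ (t + 1)) i i = 0 := by omega
      rw [Finset.sum_eq_zero_iff] at h0
      have h2 := recurrence hp hpB i i 1 (fun r hr => by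
        have := h0 r (Finset.mem_range.2 (lt_of_lt_of_le hr hpe))
        rwa [add_comm] at this) (k + l - 1)
      have h3 : 1 + (k + l - 1) = k + l := by omega
      rw [h3] at h2
      have := mem_core.1 hi
      omega
    calc (core B (k + l)).card = ∑ i ∈ core B (k + l), 1 := by simp
      _ ≤ ∑ i ∈ core B (k + l), ∑ t ∈ Finset.range e, (B ^ (t + 1)) i i := Finset.sum_le_sum h1
      _ ≤ ∑ i, ∑ t ∈ Finset.range e, (B ^ (t + 1)) i i :=
        Finset.sum_le_sum_of_subset (Finset.subset_univ _)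
      _ = ∑ t ∈ Finset.range e, (B ^ (t + 1)).trace := by
        rw [Finset.sum_comm]
        rfl
      _ = bound A e := hbd.symm
  · intro i hi j hj
    have hji := core_pos hR hj hi
    obtain ⟨r, hr, hrp⟩ : ∃ r < p.natDegree, (B ^ r) j i ≠ 0 := by
      by_contra hcon
      push Not at hcon
      have h2 := recurrence hp hpB j i 0 (fun r hr => by
        rw [zero_add]
        exact hcon r hr) (k + l)
      rw [zero_add] at h2
      omega
    calc B i j ≤ (B ^ 1) i j * (B ^ r) j i := by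
          rw [pow_one]
          exact Nat.le_mul_of_pos_right _ (Nat.pos_of_ne_zero hrp)
      _ ≤ (B ^ (1 + r)) i i := le_pow_of
      _ ≤ (B ^ (1 + r)).trace := diag_le_trace _ i
      _ = (B ^ (r + 1)).trace := by rw [add_comm]
      _ ≤ ∑ t ∈ Finset.range e, (B ^ (t + 1)).trace :=
        Finset.single_le_sum (f := fun t => (B ^ (t + 1)).trace) (fun _ _ => Nat.zero_le _)
          (Finset.mem_range.2 (lt_of_lt_of_le hr hpe))
      _ = bound A e := hbd.symm

/-- matrices of bounded size with bounded entries -/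
def Small (M : ℕ) : Set NM := {X | X.1 ≤ M ∧ ∀ i j, X.2 i j ≤ M}

lemma small_finite (M : ℕ) : (Small M).Finite := by
  have h1 : Small M ⊆ ⋃ r ∈ Set.Iic M, (fun Y : Matrix (Fin r) (Fin r) ℕ => (⟨r, Y⟩ : NM)) ''
      {Y | ∀ i j, Y i j ≤ M} := by
    rintro ⟨r, Y⟩ ⟨h, h'⟩
    exact Set.mem_iUnion₂.2 ⟨r, h, Y, h', rfl⟩
  refine Set.Finite.subset ?_ h1
  refine (Set.finite_Iic M).biUnion fun r _ => ?_
  refine Set.Finite.image _ ?_
  have h2 : ({Y : Matrix (Fin r) (Fin r) ℕ | ∀ i j, Y i j ≤ M} : Set (Fin r → Fin r → ℕ)) =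
      Set.pi Set.univ fun _ => Set.pi Set.univ fun _ => Set.Iic M := by
    ext Y
    simp only [Set.mem_pi, Set.mem_univ, true_imp_iff, Set.mem_Iic]
    exact Iff.rfl
  exact h2 ▸ Set.Finite.pi' fun _ => Set.Finite.pi' fun _ => Set.finite_Iic M

theorem sse_small {e : ℕ} {A : Matrix (Fin n) (Fin n) ℕ} {B : Matrix (Fin m) (Fin m) ℕ}
    (hA : ∃ k : ℕ, ∀ i j, 0 < (A ^ k) i j) (h : SE A B) (hB : DegLe e B) :
    ∃ X ∈ Small (bound A e), SSE ⟨m, B⟩ X := by
  obtain ⟨k, hk⟩ := hA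
  obtain ⟨l, hl⟩ := h
  obtain ⟨h1, h2⟩ := core_bound hl hk hB
  have hl0 : 0 < l := hl.choose_spec.choose_spec.1
  refine ⟨toNM (rest B (core B (k + l))), ⟨?_, fun i j => ?_⟩,
    sse_self (by omega) (rect_of hl hk)⟩
  · show Fintype.card (core B (k + l)) ≤ _
    rwa [Fintype.card_coe]
  · exact h2 _ (Subtype.coe_prop _) _ (Subtype.coe_prop _)

theorem finite_of_degree (e : ℕ) (A : Matrix (Fin n) (Fin n) ℕ)
    (hA : ∃ k : ℕ, ∀ i j, 0 < (A ^ k) i j) :
    ∃ (N : ℕ) (C : Fin N → NM), ∀ (m : ℕ) (B : Matrix (Fin m) (Fin m) ℕ),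
      SE A B → DegLe e B → ∃ i : Fin N, SSE ⟨m, B⟩ (C i) := by
  have hfin := small_finite (bound A e)
  refine ⟨hfin.toFinset.card, fun i => (hfin.toFinset.equivFin.symm i).1, ?_⟩
  intro m B h hB
  obtain ⟨X, hX, hs⟩ := sse_small hA h hB
  refine ⟨hfin.toFinset.equivFin ⟨X, hfin.mem_toFinset.2 hX⟩, ?_⟩
  simpa using hs

/-- lag at most `l` implies degree at most `l + n` -/
theorem degLe_of_lag {l : ℕ} {A : Matrix (Fin n) (Fin n) ℕ} {B : Matrix (Fin m) (Fin m) ℕ}
    (h : SEl l A B) : DegLe (l + n) B := by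
  obtain ⟨R, S, -, h1, h2, h3, h4⟩ := h
  refine ⟨X ^ l * (Q A).charpoly, ?_, ?_, ?_⟩
  · exact mul_ne_zero (pow_ne_zero _ X_ne_zero) (Matrix.charpoly_monic _).ne_zero
  · rw [Polynomial.natDegree_mul (pow_ne_zero _ X_ne_zero) (Matrix.charpoly_monic _).ne_zero,
      Polynomial.natDegree_X_pow, Matrix.charpoly_natDegree_eq_dim, Fintype.card_fin]
  · have key : ∀ q : ℚ[X], Q S * aeval (Q A) q = aeval (Q B) q * Q S := by
      intro q
      induction q using Polynomial.induction_on' with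
      | add p q hp hq => rw [map_add, map_add, Matrix.mul_add, Matrix.add_mul, hp, hq]
      | monomial k c =>
        rw [← C_mul_X_pow_eq_monomial]
        simp only [map_mul, aeval_C, map_pow, aeval_X]
        rw [← Algebra.smul_def, ← Algebra.smul_def, Matrix.mul_smul, Matrix.smul_mul, ← Q_pow,
          ← Q_pow, ← Q_mul, ← Q_mul, pow_comm'' h4]
    have h5 : Q B ^ l = Q S * Q R := by rw [← Q_pow, h2, Q_mul]
    show aeval (Q B) (X ^ l * (Q A).charpoly) = 0
    rw [mul_comm, map_mul, map_pow, aeval_X, h5, ← Matrix.mul_assoc, ← key,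
      Matrix.aeval_self_charpoly, Matrix.mul_zero, Matrix.zero_mul]

/-- every matrix satisfies a polynomial of degree its size -/
theorem degLe_size (B : Matrix (Fin m) (Fin m) ℕ) : DegLe m B :=
  ⟨(Q B).charpoly, (Matrix.charpoly_monic _).ne_zero,
    by rw [Matrix.charpoly_natDegree_eq_dim, Fintype.card_fin], Matrix.aeval_self_charpoly _⟩

theorem DegLe.mono {e e' : ℕ} (he : e ≤ e') {B : Matrix (Fin m) (Fin m) ℕ} (h : DegLe e B) :
    DegLe e' B := by
  obtain ⟨p, h1, h2, h3⟩ := h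
  exact ⟨p, h1, h2.trans he, h3⟩

/-- the shift equivalence class is a finite union of strong shift equivalence classes -/
def FiniteRefinement (A : Matrix (Fin n) (Fin n) ℕ) : Prop :=
  ∃ (N : ℕ) (C : Fin N → NM), ∀ (m : ℕ) (B : Matrix (Fin m) (Fin m) ℕ),
    SE A B → ∃ i : Fin N, SSE ⟨m, B⟩ (C i)

theorem iff_degree (A : Matrix (Fin n) (Fin n) ℕ) (hA : ∃ k : ℕ, ∀ i j, 0 < (A ^ k) i j) :
    FiniteRefinement A ↔
      ∃ e : ℕ, ∀ (m : ℕ) (B : Matrix (Fin m) (Fin m) ℕ), SE A B →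
        ∃ (m' : ℕ) (B' : Matrix (Fin m') (Fin m') ℕ), SE A B' ∧ SSE ⟨m, B⟩ ⟨m', B'⟩ ∧ DegLe e B' := by
  constructor
  · rintro ⟨N, C, hC⟩
    have hch : ∀ i : Fin N, ∃ X : NM,
        (∃ Y : NM, SE A Y.2 ∧ SSE Y (C i)) → SE A X.2 ∧ SSE X (C i) := by
      intro i
      by_cases h : ∃ Y : NM, SE A Y.2 ∧ SSE Y (C i)
      · obtain ⟨Y, hY⟩ := h
        exact ⟨Y, fun _ => hY⟩
      · exact ⟨⟨0, 0⟩, fun h' => absurd h' h⟩
    choose X hX using hch
    refine ⟨∑ i, (X i).1, fun m B hB => ?_⟩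
    obtain ⟨i, hi⟩ := hC m B hB
    obtain ⟨h1, h2⟩ := hX i ⟨⟨m, B⟩, hB, hi⟩
    refine ⟨(X i).1, (X i).2, h1, hi.trans _ _ _ (h2.symm _ _), ?_⟩
    exact (degLe_size (X i).2).mono
      (Finset.single_le_sum (f := fun i => (X i).1) (fun _ _ => Nat.zero_le _) (Finset.mem_univ i))
  · rintro ⟨e, he⟩
    obtain ⟨N, C, hC⟩ := finite_of_degree e A hA
    refine ⟨N, C, fun m B hB => ?_⟩
    obtain ⟨m', B', h1, h2, h3⟩ := he m B hB
    obtain ⟨i, hi⟩ := hC m' B' h1 h3
    exact ⟨i, h2.trans _ _ _ hi⟩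

end Pool.Agent.helper52.SSE
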