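import Pool.Agent.helper52.SSE.Defs

set_option autoImplicit false

open scoped BigOperators
open Polynomial

namespace Pool.Agent.helper52.SSE

variable {n m : ℕ}

/-- the rational matrix -/
noncomputable abbrev Q {α β : Type*} (A : Matrix α β ℕ) : Matrix α β ℚ := A.map (Nat.cast : ℕ → ℚ)

lemma Q_apply {α β : Type*} (A : Matrix α β ℕ) (i : α) (j : β) : Q A i j = (A i j : ℚ) := rfl

lemma Q_mul {α β γ : Type*} [Fintype β] (A : Matrix α β ℕ) (B : Matrix β γ ℕ) :
    Q (A * B) = Q A * Q B := by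
  ext i j
  simp [Q, Matrix.mul_apply]

lemma Q_pow {α : Type*} [Fintype α] [DecidableEq α] (A : Matrix α α ℕ) (k : ℕ) :
    Q (A ^ k) = Q A ^ k := by
  induction k with
  | zero =>
    ext i j
    by_cases h : i = j
    · simp [Q, h]
    · simp [Q, h]
  | succ k ih => rw [pow_succ, Q_mul, ih, pow_succ]

lemma pow_comm' {l : ℕ} {A : Matrix (Fin n) (Fin n) ℕ} {B : Matrix (Fin m) (Fin m) ℕ}
    {R : Matrix (Fin n) (Fin m) ℕ} (h : A * R = R * B) : A ^ l * R = R * B ^ l := by
  induction l with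
  | zero => simp
  | succ l ih => rw [pow_succ, Matrix.mul_assoc, h, ← Matrix.mul_assoc, ih, Matrix.mul_assoc, ← pow_succ]

lemma pow_comm'' {l : ℕ} {A : Matrix (Fin n) (Fin n) ℕ} {B : Matrix (Fin m) (Fin m) ℕ}
    {S : Matrix (Fin m) (Fin n) ℕ} (h : S * A = B * S) : S * A ^ l = B ^ l * S := by
  induction l with
  | zero => simp
  | succ l ih =>
    rw [pow_succ, ← Matrix.mul_assoc, ih, Matrix.mul_assoc, h, ← Matrix.mul_assoc, ← pow_succ]

lemma trace_large {l : ℕ} {A : Matrix (Fin n) (Fin n) ℕ} {B : Matrix (Fin m) (Fin m) ℕ}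
    (h : SEl l A B) (j : ℕ) : (A ^ (l + j)).trace = (B ^ (l + j)).trace := by
  obtain ⟨R, S, -, h1, h2, h3, h4⟩ := h
  have e1 : A ^ (l + j) = R * (B ^ j * S) := by
    rw [← pow_comm'' h4, ← Matrix.mul_assoc, ← h1, pow_add]
  have e2 : B ^ (l + j) = (B ^ j * S) * R := by
    rw [Matrix.mul_assoc, ← h2, ← pow_add, add_comm]
  rw [e1, e2, Matrix.trace_mul_comm]

lemma trace_aeval {l : ℕ} {A : Matrix (Fin n) (Fin n) ℕ} {B : Matrix (Fin m) (Fin m) ℕ}
    (h : SEl l A B) (a : ℚ[X]) (M : ℕ) (hM : l ≤ M) :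
    (aeval (Q A) (a * X ^ M)).trace = (aeval (Q B) (a * X ^ M)).trace := by
  induction a using Polynomial.induction_on' with
  | add p q hp hq => simp only [add_mul, map_add, Matrix.trace_add, hp, hq]
  | monomial k c =>
    have hp : (monomial k c : ℚ[X]) * X ^ M = C c * X ^ (k + M) := by
      rw [← C_mul_X_pow_eq_monomial, mul_assoc, ← pow_add]
    rw [hp]
    simp only [map_mul, aeval_C, map_pow, aeval_X]
    rw [← Algebra.smul_def, ← Algebra.smul_def, Matrix.trace_smul, Matrix.trace_smul, ← Q_pow,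
      ← Q_pow]
    obtain ⟨j, hj⟩ : ∃ j, k + M = l + j := ⟨k + M - l, by omega⟩
    rw [hj]
    have := trace_large h j
    congr 1
    simp only [Matrix.trace, Matrix.diag_apply, Matrix.map_apply, Q] at this ⊢
    exact_mod_cast this

/-- shift equivalent matrices have the same traces of powers -/
theorem trace_eq {l : ℕ} {A : Matrix (Fin n) (Fin n) ℕ} {B : Matrix (Fin m) (Fin m) ℕ}
    (h : SEl l A B) (k : ℕ) (hk : 1 ≤ k) : (A ^ k).trace = (B ^ k).trace := by
  set P : ℚ[X] := (Q A).charpoly * (Q B).charpoly with hP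
  have hP0 : P ≠ 0 := mul_ne_zero (Matrix.charpoly_monic _).ne_zero (Matrix.charpoly_monic _).ne_zero
  obtain ⟨g, hg, hng⟩ := (Polynomial.finiteMultiplicity_X_sub_C (0 : ℚ) hP0).exists_eq_pow_mul_and_not_dvd
  set s := multiplicity (X - C (0 : ℚ)) P with hs
  simp only [map_zero, sub_zero] at hg hng
  have hcop : IsCoprime (X ^ l : ℚ[X]) g :=
    ((Polynomial.irreducible_X.coprime_iff_not_dvd).2 hng).pow_left
  obtain ⟨a, b, hab⟩ := hcop
  have key : ∀ {r : ℕ} (D : Matrix (Fin r) (Fin r) ℕ), aeval (Q D) P = 0 →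
      (Q (D ^ k)).trace = (aeval (Q D) (a * X ^ (l + k))).trace := by
    intro r D hD
    have e1 : (X ^ k : ℚ[X]) = a * X ^ (l + k) + X ^ k * b * g := by
      calc (X ^ k : ℚ[X]) = X ^ k * (a * X ^ l + b * g) := by rw [hab, mul_one]
        _ = _ := by rw [pow_add]; ring
    have e2 : Q (D ^ k) = aeval (Q D) (a * X ^ (l + k)) + aeval (Q D) (X ^ k * b * g) := by
      rw [← map_add, ← e1, map_pow, aeval_X, Q_pow]
    rw [e2, Matrix.trace_add]
    have hnil : IsNilpotent (aeval (Q D) (X ^ k * b * g)) := by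
      refine ⟨s + 1, ?_⟩
      rw [← map_pow]
      have hd : P ∣ (X ^ k * b * g) ^ (s + 1) := by
        rw [hg]
        have e3 : (X ^ k * b * g) ^ (s + 1) = X ^ s * g * (X ^ (k * (s + 1) - s) * b ^ (s + 1) * g ^ s) := by
          have e4 : (X : ℚ[X]) ^ (k * (s + 1)) = X ^ s * X ^ (k * (s + 1) - s) := by
            rw [← pow_add]
            congr 1
            have : s + 1 ≤ k * (s + 1) := Nat.le_mul_of_pos_left _ hk
            omega
          rw [mul_pow, mul_pow, ← pow_mul, e4]
          ring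
        exact ⟨_, e3⟩
      obtain ⟨c, hc⟩ := hd
      rw [hc, map_mul, hD, zero_mul]
    have ht := (Matrix.isNilpotent_trace_of_isNilpotent hnil).eq_zero
    rw [ht, add_zero]
  have hA : aeval (Q A) P = 0 := by
    rw [hP, map_mul, Matrix.aeval_self_charpoly, zero_mul]
  have hB : aeval (Q B) P = 0 := by
    rw [hP, map_mul, Matrix.aeval_self_charpoly, mul_zero]
  have hfin : (Q (A ^ k)).trace = (Q (B ^ k)).trace := by
    rw [key A hA, key B hB, trace_aeval h a (l + k) (by omega)]
  simp only [Matrix.trace, Matrix.diag_apply, Matrix.map_apply, Q] at hfin ⊢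
  exact_mod_cast hfin

/-- the entries of the powers satisfy a linear recurrence -/
theorem recurrence {B : Matrix (Fin m) (Fin m) ℕ} {p : ℚ[X]} (hp : p ≠ 0) (hB : aeval (Q B) p = 0)
    (i j : Fin m) (a : ℕ) (h0 : ∀ r < p.natDegree, (B ^ (a + r)) i j = 0) (r : ℕ) :
    (B ^ (a + r)) i j = 0 := by
  induction r using Nat.strong_induction_on with
  | _ r ih =>
    rcases lt_or_ge r p.natDegree with h | h
    · exact h0 r h
    · obtain ⟨r', rfl⟩ := Nat.exists_eq_add_of_le h
      have h1 : Q B ^ (a + r') * aeval (Q B) p = 0 := by rw [hB, mul_zero]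
      rw [aeval_eq_sum_range, Finset.mul_sum] at h1
      have h2 := congrFun (congrFun h1 i) j
      rw [Finset.sum_range_succ] at h2
      have h3 : ∑ t ∈ Finset.range p.natDegree, Q B ^ (a + r') * p.coeff t • Q B ^ t = 
          ∑ t ∈ Finset.range p.natDegree, p.coeff t • Q (B ^ (a + (r' + t))) := by
        refine Finset.sum_congr rfl fun t _ => ?_
        rw [mul_smul_comm, ← pow_add, Q_pow, add_assoc]
      rw [h3] at h2
      rw [Matrix.add_apply, Matrix.sum_apply] at h2
      have h4 : ∑ t ∈ Finset.range p.natDegree, (p.coeff t • Q (B ^ (a + (r' + t)))) i j = 0 := by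
        refine Finset.sum_eq_zero fun t ht => ?_
        rw [Matrix.smul_apply, Q_apply, ih (r' + t) (by have := Finset.mem_range.1 ht; omega)]
        simp
      rw [h4, zero_add, mul_smul_comm, ← pow_add, Matrix.smul_apply, ← Q_pow, Q_apply] at h2
      have h5 : p.coeff p.natDegree ≠ 0 := by
        rw [coeff_natDegree]
        exact leadingCoeff_ne_zero.2 hp
      have h6 : ((B ^ (a + r' + p.natDegree)) i j : ℚ) = 0 :=
        (smul_eq_zero.1 h2).resolve_left h5
      have h7 : a + r' + p.natDegree = a + (p.natDegree + r') := by ring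
      rw [h7] at h6
      exact_mod_cast h6

end Pool.Agent.helper52.SSE
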